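import Pool.Agent.Q17.FT.Stm
import Pool.Agent.Q275.RB.RTK
import Pool.Agent.Q277.TC.Rl

/-!
# Project FT of helper17, job FTK, by helper184

(the proof of `t_FTK` is the proof of `t_RAT` in `Pool.Agent.Q66.RB.Rat` with another last part)
-/

set_option autoImplicit false
set_option linter.unusedSectionVars false

open scoped Classical

noncomputable section

namespace Pool.Agent.Q184.FT

open Pool.Agent.H254R3.IN hiding NN
open Pool.Agent.Q17.WR
open Pool.Agent.Q17.AM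
open Pool.Agent.Q17.RB
open Pool.Agent.Q17.FT (S_FTK)
open Pool.Agent.Q17.DC (S_FMT)
open Pool.Agent.Q66.RB

lemma unit_unique {n : ℕ} [NeZero n] {u v : (ZMod n)ˣ}
    (h : ∀ ζ : ℂ, ζ ^ n = 1 → ζ ^ (u : ZMod n).val = ζ ^ (v : ZMod n).val) : u = v := by
  have h1 := Complex.isPrimitiveRoot_exp n (NeZero.ne n)
  have h2 := h _ h1.pow_eq_one
  have h3 := h1.pow_inj (ZMod.val_lt _) (ZMod.val_lt _) h2
  exact Units.ext (ZMod.val_injective n h3)

lemma unit_mul {n : ℕ} [NeZero n] {s t : ℂ ≃+* ℂ} {u v w : (ZMod n)ˣ}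
    (hu : ∀ ζ : ℂ, ζ ^ n = 1 → s ζ = ζ ^ (u : ZMod n).val)
    (hv : ∀ ζ : ℂ, ζ ^ n = 1 → t ζ = ζ ^ (v : ZMod n).val)
    (hw : ∀ ζ : ℂ, ζ ^ n = 1 → (s * t) ζ = ζ ^ (w : ZMod n).val) : w = u * v := by
  refine unit_unique fun ζ hζ => ?_
  rw [← hw ζ hζ]
  change s (t ζ) = _
  rw [hv ζ hζ, map_pow, hu ζ hζ, ← pow_mul, Units.val_mul, ZMod.val_mul]
  conv_lhs => rw [← Nat.mod_add_div ((u : ZMod n).val * (v : ZMod n).val) n, pow_add, pow_mul ζ n,
    hζ, one_pow, mul_one]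

section count

variable {H A : Type} [Group H] [Fintype H] [CommGroup A] [Fintype A]

/-- The families fixed by a group `K` of automorphisms which permutes the sets `γ ω` transitively
correspond to their members at `1`, fixed by the stabiliser. -/
lemma count_K (hI : S_FXI) (γ X : A → Set (H → ℂ)) (hirr : ∀ ω, ∀ χ ∈ γ ω, IsIrr χ)
    (hd : ∀ ω ω', ω ≠ ω' → Disjoint (γ ω) (γ ω')) (hX : ∀ ω, X ω ⊆ γ ω)
    (K : Set (ℂ ≃+* ℂ)) (hm : ∀ s ∈ K, ∀ t ∈ K, s * t ∈ K)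
    (hi : ∀ s ∈ K, s⁻¹ ∈ K) (as : (ℂ ≃+* ℂ) → A)
    (ham : ∀ s t : ℂ ≃+* ℂ, as (s * t) = as s * as t)
    (hX2 : ∀ s : ℂ ≃+* ℂ, ∀ ω, ∀ χ ∈ X ω, (fun g => s (χ g)) ∈ X (as s * ω))
    (hsurj : ∀ a, ∃ t ∈ K, as t = a) :
    (FxS (FX X) K).ncard = (FxS (X 1) {s | s ∈ K ∧ as s = 1}).ncard := by
  have hinj := (hI H A γ hirr hd).2
  have ha1 : as 1 = 1 := by
    have h := ham 1 1
    rw [one_mul] at h
    exact (mul_eq_left.mp h.symm)
  have hai : ∀ s, as s⁻¹ = (as s)⁻¹ := by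
    intro s
    have h := ham s⁻¹ s
    rw [inv_mul_cancel, ha1] at h
    exact eq_inv_of_mul_eq_one_left h.symm
  choose t htK hta using hsurj
  have key : ∀ χ ∈ FxS (X 1) {s | s ∈ K ∧ as s = 1}, ∀ s ∈ K, ∀ ω,
      (fun g => s (t ω (χ g))) = fun g => t (as s * ω) (χ g) := by
    intro χ hχ s hs ω
    have hr : (t (as s * ω))⁻¹ * (s * t ω) ∈ {s | s ∈ K ∧ as s = 1} := by
      refine ⟨hm _ (hi _ (htK _)) _ (hm _ hs _ (htK _)), ?_⟩
      rw [ham, ham, hai, hta, hta, inv_mul_cancel]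
    funext g
    have h2 := hχ.2 _ hr g
    have h3 : t (as s * ω) (((t (as s * ω))⁻¹ * (s * t ω)) (χ g)) = s (t ω (χ g)) := by
      change t (as s * ω) ((t (as s * ω)).symm (s (t ω (χ g)))) = s (t ω (χ g))
      exact RingEquiv.apply_symm_apply _ _
    rw [h2] at h3
    exact h3.symm
  have himg : FxS (FX X) K =
      (fun χ : H → ℂ => nca fun ω g => t ω (χ g)) '' (FxS (X 1) {s | s ∈ K ∧ as s = 1}) := by
    ext θ
    constructor
    · rintro ⟨⟨f, hf, rfl⟩, h2⟩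
      have hfs : ∀ s ∈ K, ∀ ω, (fun g => s (f ω g)) = f (as s * ω) := by
        intro s hs ω
        have h3 : nca (fun ω g => s (f ((as s)⁻¹ * ω) g)) = nca f := by
          have h4 := nca_s s f
          have h5 : (fun x => s (nca f x)) = nca f := funext fun x => h2 s hs x
          rw [h5] at h4
          rw [h4, nca_shift (fun ω g => s (f ω g))]
        have h6 := hinj _ f (fun ω => ?_) (fun ω => hX ω (hf ω)) h3
        · have h7 := congrFun h6 (as s * ω)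
          rw [inv_mul_cancel_left] at h7
          exact h7
        · have h8 := hX2 s ((as s)⁻¹ * ω) _ (hf _)
          rw [mul_inv_cancel_left] at h8
          exact hX _ h8
      refine ⟨f 1, ⟨hf 1, ?_⟩, ?_⟩
      · rintro s ⟨hs, hs1⟩ g
        have h3 := congrFun (hfs s hs 1) g
        rw [hs1, one_mul] at h3
        exact h3
      · change nca (fun ω g => t ω (f 1 g)) = nca f
        congr 1
        funext ω
        rw [hfs (t ω) (htK ω) 1, hta, mul_one]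
    · rintro ⟨χ, hχ, rfl⟩
      refine ⟨⟨_, fun ω => ?_, rfl⟩, fun s hs x => ?_⟩
      · have h3 := hX2 (t ω) 1 χ hχ.1
        rw [hta, mul_one] at h3
        exact h3
      · have h3 := congrFun (nca_s s (fun ω g => t ω (χ g))) x
        have h4 : (fun (ω : A) (g : H) => s (t ω (χ g))) = fun ω g => t (as s * ω) (χ g) :=
          funext fun ω => key χ hχ s hs ω
        rw [h4, nca_shift (fun ω g => t ω (χ g))] at h3
        exact h3
  rw [himg]
  refine Set.InjOn.ncard_image ?_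
  intro χ hχ χ' hχ' h
  have hmem : ∀ χ ∈ FxS (X 1) {s | s ∈ K ∧ as s = 1}, ∀ ω, (fun g => t ω (χ g)) ∈ γ ω := by
    intro χ hχ ω
    have h3 := hX2 (t ω) 1 χ hχ.1
    rw [hta, mul_one] at h3
    exact hX _ h3
  have h3 := congrFun (hinj _ _ (hmem χ hχ) (hmem χ' hχ') h) 1
  funext g
  exact (t 1).injective (congrFun h3 g)

end count

/-- the characters of height zero over a family of blocks -/
lemma Irr0_FX (hI : S_FXI) (hT : S_HT) {H A : Type} [Group H] [Fintype H] [Group A] [Fintype A]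
    {p : ℕ} [Fact p.Prime] {O : ValuationSubring ℂ} (hp : (p : ℂ) ∈ O.nonunits)
    (γ : A → Set (H → ℂ)) (hγ : ∀ ω, IsBlock O (γ ω))
    (hd : ∀ ω ω', ω ≠ ω' → Disjoint (γ ω) (γ ω')) (D : Subgroup H)
    (hD : ∀ ω, IsDefectGroup p O (γ ω) D) :
    Irr0 p (Da A D) (FX γ) = FX fun ω => Irr0 p D (γ ω) := by
  have h := Fxd_FX hI hT hp γ hγ hd D hD 1 (fun ω χ hχ => hχ)
  rw [Pool.Agent.Q275.RB.Fxd_one] at h
  rw [h]
  congr 1
  funext ω
  exact Pool.Agent.Q275.RB.Fxd_one _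

/-- **job FTK** -/
theorem t_FTK : S_FXI → S_FXB → S_TRA → S_FXC → S_GCB → S_HT → S_FMT → S_FTK := by
  rintro hI hFB hTR hFC hG hT hFM G _ _ p _ O hp B D b ⟨hB, hD, hb⟩
  have : Fintype (Pool.Agent.Q17.AM.NN D) := Fintype.ofFinite _
  have hn0 : NeZero (Nat.card G) := ⟨Nat.card_pos.ne'⟩
  have hnG : ∀ g : G, g ^ Nat.card G = 1 := fun g => pow_card_eq_one'
  have hnN : ∀ g : Pool.Agent.Q17.AM.NN D, g ^ Nat.card G = 1 := fun g =>
    Subtype.ext (by rw [Subgroup.coe_pow, hnG]; rfl)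
  have hcN : Nat.card (Pool.Agent.Q17.AM.NN D) ∣ Nat.card G := Subgroup.card_subgroup_dvd_card _
  have hcop : ∀ u : (ZMod (Nat.card G))ˣ,
      Nat.Coprime (u : ZMod (Nat.card G)).val (Nat.card G) := ZMod.val_coe_unit_coprime
  have hcopN : ∀ u : (ZMod (Nat.card G))ˣ,
      Nat.Coprime (u : ZMod (Nat.card G)).val (Nat.card (Pool.Agent.Q17.AM.NN D)) := fun u =>
    Nat.Coprime.coprime_dvd_right hcN (hcop u)
  have hDp : IsPGroup p D := defect_pgroup hD
  obtain ⟨A, iA, fA, π, hπs, hπk⟩ : ∃ (A : Type) (_ : CommGroup A) (_ : Fintype A)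
      (π : (ZMod (Nat.card G))ˣ →* A), Function.Surjective π ∧
        ∀ u, π u = 1 ↔ u ∈ stb (Nat.card G) hnG B :=
    ⟨(ZMod (Nat.card G))ˣ ⧸ stb (Nat.card G) hnG B, inferInstance, Fintype.ofFinite _,
      QuotientGroup.mk' _, QuotientGroup.mk'_surjective _, fun u => QuotientGroup.eq_one_iff u⟩
  let k : A → ℕ := fun a => ((Function.surjInv hπs a : (ZMod (Nat.card G))ˣ) :
    ZMod (Nat.card G)).val
  let β : A → Set (G → ℂ) := fun a => gc (k a) B
  let c : A → Set (Pool.Agent.Q17.AM.NN D → ℂ) := fun a => gc (k a) b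
  have hk : ∀ a, Nat.Coprime (k a) (Nat.card G) := fun a => hcop _
  have hkN : ∀ a, Nat.Coprime (k a) (Nat.card (Pool.Agent.Q17.AM.NN D)) := fun a => hcopN _
  have hβu : ∀ u : (ZMod (Nat.card G))ˣ, β (π u) = gu u B := by
    intro u
    have h1 : π (Function.surjInv hπs (π u)) = π u := Function.surjInv_eq hπs (π u)
    have h2 : (Function.surjInv hπs (π u))⁻¹ * u ∈ stb (Nat.card G) hnG B := by
      rw [← hπk, map_mul, map_inv, h1, inv_mul_cancel]
    change gu (Function.surjInv hπs (π u)) B = gu u B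
    conv_lhs => rw [← (show gu ((Function.surjInv hπs (π u))⁻¹ * u) B = B from h2)]
    rw [← gu_mul hnG, mul_inv_cancel_left]
  have hGB := fun u : (ZMod (Nat.card G))ˣ =>
    (hG G p O hp (u : ZMod (Nat.card G)).val (hcop u)).2 B hB
  have hβB : ∀ a, IsBlock O (β a) := fun a => (hGB _).1
  have hβD : ∀ a, IsDefectGroup p O (β a) D := fun a => ((hGB _).2.1 D hD).1
  have hβb : ∀ a, IsBrauerCorrespondent p O D (β a) (c a) := fun a =>
    ((hGB _).2.1 D hD).2 b hb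
  have hcu : ∀ u : (ZMod (Nat.card G))ˣ, c (π u) = gu u b := by
    intro u
    refine (hFM G p O hp D hDp (β (π u)) (hβB _)).2.2 _ _ (hβb _) ?_
    rw [hβu]
    exact ((hGB u).2.1 D hD).2 b hb
  have hβinj : Function.Injective β := by
    intro a a' h
    obtain ⟨u, rfl⟩ := hπs a
    obtain ⟨v, rfl⟩ := hπs a'
    rw [hβu, hβu] at h
    have h1 : gu (v⁻¹ * u) B = B := by
      rw [gu_mul hnG, h, ← gu_mul hnG, inv_mul_cancel, gu_one hnG]
    have h2 := (hπk (v⁻¹ * u)).mpr h1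
    rw [map_mul, map_inv, inv_mul_eq_one] at h2
    exact h2.symm
  obtain ⟨hF1, hF2, -⟩ := hFB G A p O hp β hβB hβinj D hβD
  obtain ⟨e, he1, he2⟩ := hTR G A D
  obtain ⟨hcinj, hcor⟩ := hFC G A p O hp β hβB hβinj D hβD c hβb e he1 he2
  have hcB : ∀ a, IsBlock O (c a) := fun a => (hβb a).1
  have hcD : ∀ a, IsDefectGroup p O (c a) (D.subgroupOf (Pool.Agent.Q17.AM.NN D)) :=
    fun a => (hβb a).2.1
  -- powers
  have hpow : ∀ s : ℂ ≃+* ℂ, ∃ u : (ZMod (Nat.card G))ˣ,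
      (∀ ω, ∀ χ ∈ β ω, ∀ g, s (χ g) = χ (g ^ (u : ZMod (Nat.card G)).val)) ∧
      ∀ ω, ∀ χ ∈ c ω, ∀ g, s (χ g) = χ (g ^ (u : ZMod (Nat.card G)).val) := by
    intro s
    obtain ⟨u, hu⟩ := exists_unit (n := Nat.card G) s
    refine ⟨u, fun ω χ hχ g => ?_, fun ω χ hχ g => ?_⟩
    · exact ((hG G p O hp (u : ZMod (Nat.card G)).val (hcop u)).2 (β ω) (hβB ω)).2.2 s hu χ hχ g
    · refine ((hG (Pool.Agent.Q17.AM.NN D) p O hp (u : ZMod (Nat.card G)).val (hcopN u)).2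
        (c ω) (hcB ω)).2.2 s (fun ζ hζ => hu ζ ?_) χ hχ g
      obtain ⟨m, hm⟩ := hcN
      rw [hm, pow_mul, hζ, one_pow]
  have hg1 : Gst (FX β) := FX_gst hnG π hπs B β hβu fun s => by
    obtain ⟨u, h1, -⟩ := hpow s
    exact ⟨u, h1⟩
  have hg2 : Gst (FX c) := FX_gst hnN π hπs b c hcu fun s => by
    obtain ⟨u, -, h1⟩ := hpow s
    exact ⟨u, h1⟩
  -- the element of `A` of an automorphism
  have hexu : ∀ s : ℂ ≃+* ℂ, ∃ u : (ZMod (Nat.card G))ˣ, ∀ ζ : ℂ, ζ ^ Nat.card G = 1 →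
      s ζ = ζ ^ (u : ZMod (Nat.card G)).val := fun s => exists_unit (n := Nat.card G) s
  choose us hus using hexu
  have husm : ∀ s t : ℂ ≃+* ℂ, us (s * t) = us s * us t := fun s t =>
    unit_mul (hus s) (hus t) (hus (s * t))
  have hsβ : ∀ s : ℂ ≃+* ℂ, ∀ ω, ∀ χ ∈ β ω, (fun g => s (χ g)) ∈ β (π (us s) * ω) := by
    intro s ω χ hχ
    obtain ⟨v, rfl⟩ := hπs ω
    rw [← map_mul, hβu, gu_mul hnG, ← hβu v]
    refine ⟨χ, hχ, funext fun g => ?_⟩
    exact ((hG G p O hp (us s : ZMod (Nat.card G)).val (hcop (us s))).2 (β (π v))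
      (hβB (π v))).2.2 s (hus s) χ hχ g
  have hsc : ∀ s : ℂ ≃+* ℂ, ∀ ω, ∀ χ ∈ c ω, (fun g => s (χ g)) ∈ c (π (us s) * ω) := by
    intro s ω χ hχ
    obtain ⟨v, rfl⟩ := hπs ω
    rw [← map_mul, hcu, gu_mul hnN, ← hcu v]
    refine ⟨χ, hχ, funext fun g => ?_⟩
    refine ((hG (Pool.Agent.Q17.AM.NN D) p O hp (us s : ZMod (Nat.card G)).val
      (hcopN (us s))).2 (c (π v)) (hcB (π v))).2.2 s (fun ζ hζ => hus s ζ ?_) χ hχ g
    obtain ⟨m, hm⟩ := hcN
    rw [hm, pow_mul, hζ, one_pow]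
  have hβ1 : β 1 = B := by
    have h1 := hβu 1
    rw [map_one, gu_one hnG] at h1
    exact h1
  have hc1 : c 1 = b := by
    have h1 := hcu 1
    rw [map_one, gu_one hnN] at h1
    exact h1
  have hdβ : ∀ ω ω', ω ≠ ω' → Disjoint (β ω) (β ω') := fun ω ω' h =>
    block_disj (hβB ω) (hβB ω') fun h' => h (hβinj h')
  have hdc : ∀ ω ω', ω ≠ ω' → Disjoint (c ω) (c ω') := fun ω ω' h =>
    block_disj (hcB ω) (hcB ω') fun h' => h (hcinj h')
  have ham : ∀ s t : ℂ ≃+* ℂ, π (us (s * t)) = π (us s) * π (us t) := fun s t => by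
    rw [husm, map_mul]
  have ha1 : π (us 1) = 1 := by
    have h := ham 1 1
    rw [one_mul] at h
    exact mul_eq_left.mp h.symm
  have hai : ∀ s, π (us s⁻¹) = (π (us s))⁻¹ := by
    intro s
    have h := ham s⁻¹ s
    rw [inv_mul_cancel, ha1] at h
    exact eq_inv_of_mul_eq_one_left h.symm
  have hSt : ∀ s : ℂ ≃+* ℂ, π (us s) = 1 ↔ St s B := by
    intro s
    constructor
    · intro h χ
      rw [← hβ1]
      constructor
      · intro hχ
        have h2 := hsβ s 1 χ hχ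
        rwa [h, mul_one] at h2
      · intro hχ
        have h2 := hsβ s⁻¹ 1 _ hχ
        rw [hai, h, inv_one, mul_one] at h2
        have h3 : (fun g => s⁻¹ (s (χ g))) = χ := funext fun g => s.symm_apply_apply (χ g)
        rwa [h3] at h2
    · intro h
      obtain ⟨χ, hχ⟩ := hB.nonempty
      by_contra hne
      have h2 := (h χ).mp hχ
      rw [← hβ1] at h2 hχ
      have h3 := hsβ s 1 χ hχ
      rw [mul_one] at h3
      exact Set.disjoint_left.mp (hdβ _ _ hne) h3 h2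
  refine ⟨A, iA, fA, β, {θ | (fun x => θ (e x)) ∈ FX c}, hβ1, ⟨hF1, hF2, hcor⟩, hg1, ?_, ?_⟩
  · intro s θ
    exact hg2 s (fun x => θ (e x))
  · intro K hK1 hKm hKi hKs
    have hset : {s : ℂ ≃+* ℂ | s ∈ K ∧ π (us s) = 1} = {s | s ∈ K ∧ St s B} := by
      ext s
      exact and_congr_right fun _ => hSt s
    have hsurj : ∀ a, ∃ t ∈ K, π (us t) = a := by
      intro a
      obtain ⟨u, rfl⟩ := hπs a
      obtain ⟨s₀, hs₀⟩ := Pool.Agent.Q17.TC.exists_sigma (N := Nat.card G) Nat.card_pos (hcop u)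
      have h1 : us s₀ = u := unit_unique fun ζ hζ => by rw [← hus s₀ ζ hζ, hs₀ ζ hζ]
      obtain ⟨t, ht, h2⟩ := hKs s₀
      refine ⟨t, ht, ?_⟩
      have h3 := (hSt _).mpr h2
      rw [ham, hai, inv_mul_eq_one] at h3
      rw [← h3, h1]
    have cnt : ∀ (H : Type) [Group H] [Fintype H] (γ : A → Set (H → ℂ)) (D' : Subgroup H),
        (∀ ω, IsBlock O (γ ω)) → (∀ ω ω', ω ≠ ω' → Disjoint (γ ω) (γ ω')) →
        (∀ ω, IsDefectGroup p O (γ ω) D') →
        (∀ s : ℂ ≃+* ℂ, ∀ ω, ∀ χ ∈ γ ω, (fun g => s (χ g)) ∈ γ (π (us s) * ω)) →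
        (FxS (Irr0 p (Da A D') (FX γ)) K).ncard =
          (FxS (Irr0 p D' (γ 1)) {s | s ∈ K ∧ St s B}).ncard := by
      intro H _ _ γ D' hγ hd hD' hs
      rw [Irr0_FX hI hT hp γ hγ hd D' hD', ← hset]
      refine count_K hI γ (fun ω => Irr0 p D' (γ ω)) (fun ω => (hγ ω).irr) hd
        (fun ω χ h => h.1) K hKm hKi (fun s => π (us s)) ham ?_ hsurj
      rintro s ω χ ⟨h1, m, h2, h3⟩
      refine ⟨hs s ω χ h1, m, ?_, h3⟩
      change (m : ℂ) = s (χ 1)
      rw [← h2, map_natCast]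
    refine ⟨?_, ?_⟩
    · have h1 := cnt G β D hβB hdβ hβD hsβ
      rw [hβ1] at h1
      exact h1
    · have h1 := cnt (Pool.Agent.Q17.AM.NN D) c (D.subgroupOf (Pool.Agent.Q17.AM.NN D)) hcB hdc
        hcD hsc
      rw [hc1] at h1
      rw [← h1]
      have hidx : (Da A (D.subgroupOf (Pool.Agent.Q17.AM.NN D))).index =
          ((Da A D).subgroupOf (Pool.Agent.Q17.AM.NN (Da A D))).index := by
        rw [← Subgroup.index_comap_of_surjective
          ((Da A D).subgroupOf (Pool.Agent.Q17.AM.NN (Da A D))) (f := e.toMonoidHom) e.surjective]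
        congr 1
        ext z
        rw [Subgroup.mem_comap, Subgroup.mem_subgroupOf]
        change (z.right = 1 ∧ ∀ ω, z.left ω ∈ D.subgroupOf (Pool.Agent.Q17.AM.NN D)) ↔
          ((e z : Wr G A A).right = 1 ∧ ∀ ω, (e z : Wr G A A).left ω ∈ D)
        rw [he1]
        refine and_congr_right fun _ => forall_congr' fun ω => ?_
        rw [he2, Subgroup.mem_subgroupOf]
      have hinjE : Function.Injective (fun (θ : Pool.Agent.Q17.AM.NN (Da A D) → ℂ) =>
          fun x => θ (e x)) := by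
        intro θ θ' h
        funext y
        obtain ⟨x, rfl⟩ := e.surjective y
        exact congrFun h x
      rw [← Set.ncard_image_of_injective _ hinjE]
      congr 1
      ext χ
      constructor
      · rintro ⟨θ, ⟨⟨h1, m, h2, h3⟩, h4⟩, rfl⟩
        refine ⟨⟨h1, m, ?_, ?_⟩, fun s hs g => h4 s hs (e g)⟩
        · rw [h2]
          exact congrArg θ (map_one e).symm
        · rw [h3, hidx]
      · rintro ⟨⟨h1, m, h2, h3⟩, h4⟩
        refine ⟨fun y => χ (e.symm y), ⟨⟨?_, m, ?_, ?_⟩, fun s hs g => h4 s hs (e.symm g)⟩, ?_⟩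
        · change (fun x => χ (e.symm (e x))) ∈ FX c
          simp only [MulEquiv.symm_apply_apply]
          exact h1
        · rw [h2]
          exact congrArg χ (map_one e.symm).symm
        · rw [h3, hidx]
        · funext x
          exact congrArg χ (e.symm_apply_apply x)

end Pool.Agent.Q184.FT
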