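import Pool.Agent.Q17.FT.Stm2
import Pool.Agent.H254R3.IN.Chars

/-!
# Project FT of helper17, job FLD, by helper184
-/

set_option autoImplicit false

namespace Pool.Agent.Q184.FT

open Pool.Agent.H254R3.IN hiding NN
open IntermediateField

/-- The field generated by the `N`-th roots of unity. -/
theorem finite_roots (N : ℕ) (hN : 0 < N) : {ζ : ℂ | ζ ^ N = 1}.Finite := by
  have h : {ζ : ℂ | ζ ^ N = 1} ⊆ ((Polynomial.nthRoots N (1 : ℂ)).toFinset : Set ℂ) := by
    intro ζ hζ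
    rw [Finset.mem_coe, Multiset.mem_toFinset, Polynomial.mem_nthRoots hN]
    exact hζ
  exact (Finset.finite_toSet _).subset h

/-- An algebraic number which is fixed by all automorphisms which fix a finite set of algebraic
numbers is in the field which they generate. -/
theorem mem_adjoin_of_fixed (S : Set ℂ) (hS : S.Finite) (hSa : ∀ x ∈ S, IsIntegral ℚ x) (x : ℂ)
    (hx : IsIntegral ℚ x)
    (h : ∀ s : ℂ ≃+* ℂ, (∀ ζ ∈ S, s ζ = ζ) → s x = x) : x ∈ adjoin ℚ S := by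
  classical
  set K := adjoin ℚ S with hK
  have hfin : FiniteDimensional ℚ K := by
    have : Finite S := hS
    exact finiteDimensional_adjoin fun y hy => hSa y hy
  have hxK : IsIntegral K x := hx.tower_top
  set E := adjoin K {x} with hE
  have hEfin : FiniteDimensional K E := adjoin.finiteDimensional hxK
  by_contra hcon
  -- another embedding
  obtain ⟨φ, hφ⟩ : ∃ φ : E →ₐ[K] ℂ, φ ≠ E.val := by
    by_contra hall
    push Not at hall
    have h1 : Fintype.card (E →ₐ[K] ℂ) = Module.finrank K E := AlgHom.card K E ℂ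
    have h2 : Fintype.card (E →ₐ[K] ℂ) = 1 := by
      rw [Fintype.card_eq_one_iff]
      exact ⟨E.val, hall⟩
    rw [h1] at h2
    have h3 : E = ⊥ := IntermediateField.finrank_eq_one_iff.mp h2
    have h4 : x ∈ E := mem_adjoin_simple_self K x
    rw [h3, IntermediateField.mem_bot] at h4
    obtain ⟨y, hy⟩ := h4
    apply hcon
    rw [← hy]
    exact y.2
  have hne : φ (AdjoinSimple.gen K x) ≠ x := by
    intro he
    apply hφ
    refine algHom_ext_of_eq_adjoin K hE ?_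
    intro y hy
    rw [Set.mem_singleton_iff] at hy
    subst hy
    exact he
  have hQ : FiniteDimensional ℚ E := FiniteDimensional.trans ℚ K E
  have hNF : NumberField E := { to_charZero := inferInstance, to_finiteDimensional := hQ }
  obtain ⟨s, hs⟩ := Pool.Agent.H977R3.CM.exists_aut_emb (E₀ := E) (E.val : E →+* ℂ)
    (φ : E →+* ℂ)
  have hs' : ∀ y : E, s (y : ℂ) = φ y := fun y => RingHom.congr_fun hs y
  have h5 : ∀ ζ ∈ S, s ζ = ζ := by
    intro ζ hζ
    have h6 : ζ ∈ K := subset_adjoin ℚ S hζ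
    have h7 := hs' (algebraMap K E ⟨ζ, h6⟩)
    rw [AlgHom.commutes] at h7
    exact h7
  have h8 := h s h5
  have h9 := hs' (AdjoinSimple.gen K x)
  rw [AdjoinSimple.coe_gen, h8] at h9
  exact hne h9.symm

theorem fixed_of_mem_adjoin (S : Set ℂ) (s : ℂ ≃+* ℂ) (hs : ∀ ζ ∈ S, s ζ = ζ) (x : ℂ)
    (hx : x ∈ adjoin ℚ S) : s x = x := by
  induction hx using adjoin_induction with
  | mem y hy => exact hs y hy
  | algebraMap q => exact map_ratCast s q
  | add y z _ _ h1 h2 => rw [map_add, h1, h2]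
  | inv y _ h1 => rw [map_inv₀, h1]
  | mul y z _ _ h1 h2 => rw [map_mul, h1, h2]

theorem level (p : ℕ) (x : ℂ)
    (hx : x ∈ adjoin ℚ {ζ : ℂ | ∃ j : ℕ, ζ ^ (p ^ j) = 1}) :
    ∃ j : ℕ, x ∈ adjoin ℚ {ζ : ℂ | ζ ^ (p ^ j) = 1} := by
  classical
  obtain ⟨T, hT, hxT⟩ := exists_finset_of_mem_adjoin hx
  have h1 : ∀ ζ ∈ T, ∃ j : ℕ, ζ ^ (p ^ j) = 1 := fun ζ hζ => hT hζ
  choose! j hj using h1
  refine ⟨T.sup j, adjoin.mono ℚ _ _ ?_ hxT⟩
  intro ζ hζ
  have h2 : p ^ j ζ ∣ p ^ T.sup j := pow_dvd_pow p (Finset.le_sup hζ)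
  obtain ⟨c, hc⟩ := h2
  show ζ ^ (p ^ T.sup j) = 1
  rw [hc, pow_mul, hj ζ hζ, one_pow]

theorem level_mono (p : ℕ) {i j : ℕ} (hij : i ≤ j) :
    adjoin ℚ {ζ : ℂ | ζ ^ (p ^ i) = 1} ≤ adjoin ℚ {ζ : ℂ | ζ ^ (p ^ j) = 1} := by
  refine adjoin.mono ℚ _ _ fun ζ hζ => ?_
  obtain ⟨c, hc⟩ : p ^ i ∣ p ^ j := pow_dvd_pow p hij
  have h : ζ ^ (p ^ i) = 1 := hζ
  show ζ ^ (p ^ j) = 1
  rw [hc, pow_mul, h, one_pow]

/-- **job FLD** -/
theorem t_FLD : Pool.Agent.Q17.FT.S_FLD := by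
  intro G _ _ χ hχ p hp
  constructor
  · rintro ⟨j, hj⟩ g
    have h1 : χ g ∈ adjoin ℚ {ζ : ℂ | ζ ^ (p ^ j) = 1} := by
      refine mem_adjoin_of_fixed _ (finite_roots _ (pow_pos hp j)) ?_ (χ g) ?_ ?_
      · intro ζ hζ
        refine IsIntegral.of_pow (pow_pos hp j) ?_
        have h2 : ζ ^ (p ^ j) = 1 := hζ
        rw [h2]
        exact isIntegral_one
      · exact (hχ.isIntegral g).tower_top
      · intro s hs
        exact hj s hs g
    refine adjoin.mono ℚ _ _ ?_ h1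
    intro ζ hζ
    exact ⟨j, hζ⟩
  · intro h
    choose j hj using fun g => level p (χ g) (h g)
    refine ⟨Finset.univ.sup j, fun s hs g => ?_⟩
    refine fixed_of_mem_adjoin _ s hs (χ g) ?_
    exact level_mono p (Finset.le_sup (Finset.mem_univ g)) (hj g)

end Pool.Agent.Q184.FT
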